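import Pool.Agent.helper14.AV.Spec2

/-!
Row av:CVS: disjoint segments with ends in convex position.
-/

set_option autoImplicit false

namespace Pool.Agent.helper14.AV

theorem CVS_line (a b z : ℝ × ℝ)
    (hz : z ∈ ((affineSpan ℝ {a, b} : AffineSubspace ℝ (ℝ × ℝ)) : Set (ℝ × ℝ))) :
    D a b z = 0 := by
  rw [SetLike.mem_coe, mem_affineSpan_pair_iff_exists_lineMap_eq] at hz
  obtain ⟨t, rfl⟩ := hz
  unfold D
  simp only [AffineMap.lineMap_apply, vsub_eq_sub, vadd_eq_add, Prod.fst_add, Prod.snd_add,
    Prod.smul_fst, Prod.smul_snd, Prod.fst_sub, Prod.snd_sub, smul_eq_mul]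
  ring

theorem CVS_seg (a b c d z : ℝ × ℝ) (hz : z ∈ segment ℝ c d) (h0 : D a b z = 0) :
    D a b c * D a b d ≤ 0 := by
  obtain ⟨s, t, hs, ht, hst, rfl⟩ := hz
  have e : D a b (s • c + t • d) = s * D a b c + t * D a b d := by
    unfold D
    simp only [Prod.fst_add, Prod.snd_add, Prod.smul_fst, Prod.smul_snd, smul_eq_mul]
    have hs' : s = 1 - t := by linarith
    rw [hs']
    ring
  rw [e] at h0
  by_contra hcon
  push Not at hcon
  rcases pos_and_pos_or_neg_and_neg_of_mul_pos hcon with ⟨h1, h2⟩ | ⟨h1, h2⟩
  · rcases hs.lt_or_eq with h | h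
    · have := mul_pos h h1
      have := mul_nonneg ht h2.le
      linarith
    · have ht1 : t = 1 := by linarith
      rw [← h, ht1] at h0
      linarith
  · rcases hs.lt_or_eq with h | h
    · have := mul_neg_of_pos_of_neg h h1
      have := mul_nonpos_of_nonneg_of_nonpos ht h2.le
      linarith
    · have ht1 : t = 1 := by linarith
      rw [← h, ht1] at h0
      linarith

theorem CVS (hCVA : CVA_stmt) : CVS_stmt := by
  intro n A B hc hd
  have hne : ∀ i, A i ≠ B i := by
    intro i h
    have := hc.injective (a₁ := (i, true)) (a₂ := (i, false)) h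
    exact Bool.noConfusion (congrArg Prod.snd this : true = false)
  refine ⟨hne, fun i j hij => ?_⟩
  rw [Set.disjoint_left]
  intro z hz1 hz2
  have h0 := CVS_line (A i) (B i) z hz1
  have hprod := CVS_seg (A i) (B i) (A j) (B j) z hz2 h0
  rcases hCVA _ _ _ _ (hne i) (hd i j hij) hprod with h | h
  · have h1 := hc {(i, true), (j, true), (j, false)} (i, false) (by
      have e : ((fun x : Fin n × Bool => if x.2 then A x.1 else B x.1) ''
          {(i, true), (j, true), (j, false)}) = {A i, A j, B j} := by
        rw [Set.image_insert_eq, Set.image_insert_eq, Set.image_singleton]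
        rfl
      rw [e]
      exact h)
    simp only [Set.mem_insert_iff, Set.mem_singleton_iff, Prod.mk.injEq] at h1
    rcases h1 with h1 | h1 | h1
    · exact absurd h1.2 (by decide)
    · exact hij h1.1
    · exact hij h1.1
  · have h1 := hc {(i, false), (j, true), (j, false)} (i, true) (by
      have e : ((fun x : Fin n × Bool => if x.2 then A x.1 else B x.1) ''
          {(i, false), (j, true), (j, false)}) = {B i, A j, B j} := by
        rw [Set.image_insert_eq, Set.image_insert_eq, Set.image_singleton]
        rfl
      rw [e]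
      exact h)
    simp only [Set.mem_insert_iff, Set.mem_singleton_iff, Prod.mk.injEq] at h1
    rcases h1 with h1 | h1 | h1
    · exact absurd h1.2 (by decide)
    · exact hij h1.1
    · exact hij h1.1

end Pool.Agent.helper14.AV
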